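import Pool.Agent.H6.N4D.TB

/-!
Row ORA of the board n4d (MP_c59857_nt).
-/

set_option autoImplicit false

open Finset

namespace Pool.Agent.H96.N4D

open Pool.Agent.H6.N4D

theorem ora_min (a c σ σ' : ℝ) (hσ : σ = 1 ∨ σ = -1) (hσ' : σ' = 1 ∨ σ' = -1) :
    min (nd (c - a)) (nd (c + a)) ≤ nd (c - σ' * σ * a) := by
  rcases hσ with rfl | rfl <;> rcases hσ' with rfl | rfl
  · refine (min_le_left _ _).trans (le_of_eq ?_)
    congr 1; ring
  · refine (min_le_right _ _).trans (le_of_eq ?_)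
    congr 1; ring
  · refine (min_le_right _ _).trans (le_of_eq ?_)
    congr 1; ring
  · refine (min_le_left _ _).trans (le_of_eq ?_)
    congr 1; ring

theorem nd_eq_add_int (x y : ℝ) (m : ℤ) (h : x = y + m) : nd x ≤ |y| := by
  subst h
  rw [nd_add_int]
  exact nd_le_abs y

theorem ora_core (a b c y y' r e s σ σ' : ℝ) (m1 m2 : ℤ) (hσ : σ = 1 ∨ σ = -1)
    (hσ' : σ' = 1 ∨ σ' = -1) (hr : 0 < r) (he : 13 / 20 ≤ e) (he1 : e ≤ 1)
    (h1 : b = σ * a + y / r + m1) (h2 : c = σ' * b + e * y' / r + m2)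
    (hy : |(|y|) - s| ≤ 1 / 4) (hy' : |(|y'|) - s| ≤ 1 / 4) (hs : 3 ≤ s) (hs7 : s ≤ 7)
    (h3 : 27 / 4 < r * min (nd (c - a)) (nd (c + a))) :
    nd ((if 0 ≤ y' then -σ' else σ') * b - (if 0 ≤ y then -σ else σ) * a + s / r) ≤ 1 / r := by
  have key : 27 / 4 < |σ' * y + e * y'| := by
    have h4 := ora_min a c σ σ' hσ hσ'
    have h5 : nd (c - σ' * σ * a) ≤ |(σ' * y + e * y') / r| := by
      rcases hσ' with rfl | rfl
      · apply nd_eq_add_int _ _ (m1 + m2)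
        rw [h2, h1]
        push_cast
        ring
      · apply nd_eq_add_int _ _ (-m1 + m2)
        rw [h2, h1]
        push_cast
        ring
    rw [abs_div, abs_of_pos hr] at h5
    have h6 : r * min (nd (c - a)) (nd (c + a)) ≤ r * (|σ' * y + e * y'| / r) :=
      mul_le_mul_of_nonneg_left (h4.trans h5) hr.le
    rw [mul_div_cancel₀ _ hr.ne'] at h6
    linarith
  rw [abs_le] at hy hy'
  have fin : ∀ (E : ℝ) (k : ℤ), E - k = (s - |y|) / r → nd E ≤ 1 / r := by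
    intro E k hE
    refine (nd_le E k).trans ?_
    rw [hE, abs_div, abs_of_pos hr]
    apply div_le_div_of_nonneg_right _ hr.le
    rw [abs_le]
    constructor <;> linarith
  rcases le_or_gt 0 y with hy0 | hy0 <;> rcases le_or_gt 0 y' with hy0' | hy0'
  · -- both nonnegative
    rw [abs_of_nonneg hy0] at hy fin
    rw [abs_of_nonneg hy0'] at hy'
    have w1 : 13 / 20 * y' ≤ e * y' := mul_le_mul_of_nonneg_right he hy0'
    have w2 : e * y' ≤ 1 * y' := mul_le_mul_of_nonneg_right he1 hy0'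
    rw [if_pos hy0, if_pos hy0']
    rcases hσ' with rfl | rfl
    · rcases hσ with rfl | rfl
      · apply fin _ (-m1)
        rw [h1]
        push_cast
        ring
      · apply fin _ (-m1)
        rw [h1]
        push_cast
        ring
    · exfalso
      rcases lt_abs.mp key with h | h <;> linarith
  · rw [abs_of_nonneg hy0] at hy fin
    rw [abs_of_neg hy0'] at hy'
    have w1 : e * y' ≤ 13 / 20 * y' := mul_le_mul_of_nonpos_right he hy0'.le
    have w2 : 1 * y' ≤ e * y' := mul_le_mul_of_nonpos_right he1 hy0'.le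
    rw [if_pos hy0, if_neg (not_le.mpr hy0')]
    rcases hσ' with rfl | rfl
    · exfalso
      rcases lt_abs.mp key with h | h <;> linarith
    · rcases hσ with rfl | rfl
      · apply fin _ (-m1)
        rw [h1]
        push_cast
        ring
      · apply fin _ (-m1)
        rw [h1]
        push_cast
        ring
  · rw [abs_of_neg hy0] at hy fin
    rw [abs_of_nonneg hy0'] at hy'
    have w1 : 13 / 20 * y' ≤ e * y' := mul_le_mul_of_nonneg_right he hy0'
    have w2 : e * y' ≤ 1 * y' := mul_le_mul_of_nonneg_right he1 hy0'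
    rw [if_neg (not_le.mpr hy0), if_pos hy0']
    rcases hσ' with rfl | rfl
    · exfalso
      rcases lt_abs.mp key with h | h <;> linarith
    · rcases hσ with rfl | rfl
      · apply fin _ m1
        rw [h1]
        ring
      · apply fin _ m1
        rw [h1]
        ring
  · rw [abs_of_neg hy0] at hy fin
    rw [abs_of_neg hy0'] at hy'
    have w1 : e * y' ≤ 13 / 20 * y' := mul_le_mul_of_nonpos_right he hy0'.le
    have w2 : 1 * y' ≤ e * y' := mul_le_mul_of_nonpos_right he1 hy0'.le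
    rw [if_neg (not_le.mpr hy0), if_neg (not_le.mpr hy0')]
    rcases hσ' with rfl | rfl
    · rcases hσ with rfl | rfl
      · apply fin _ m1
        rw [h1]
        ring
      · apply fin _ m1
        rw [h1]
        ring
    · exfalso
      rcases lt_abs.mp key with h | h <;> linarith

theorem sg_pm (θ : ℤ → ℝ) (k : ℕ) (t : ℤ) : sg θ k t = 1 ∨ sg θ k t = -1 := by
  unfold sg
  split_ifs
  · exact Or.inl rfl
  · exact Or.inr rfl

theorem nd_sg (θ : ℤ → ℝ) (k : ℕ) (t : ℤ) : nd (θ (t + 2 ^ k) - sg θ k t * θ t) =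
    min (nd (θ (t + 2 ^ k) - θ t)) (nd (θ (t + 2 ^ k) + θ t)) := by
  unfold sg
  split_ifs with h
  · rw [one_mul, min_eq_left h]
  · rw [neg_one_mul, sub_neg_eq_add, min_eq_right (le_of_not_ge h)]

theorem abs_ys (S : Par) (ε₁ : ℝ) (hr : 0 < S.rho) (he : 0 < ε₁) (θ : ℤ → ℝ) (k : ℕ) (t : ℤ) :
    |ys S ε₁ θ k t| = y1 S ε₁ θ k t := by
  unfold ys y1
  rw [abs_mul, abs_sr, nd_sg, abs_of_nonneg]
  have := Par.x_pos (S := S) t
  positivity

theorem pf_ORA (hSIZ : T_SIZ) : T_ORA := by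
  intro K ε hK hε
  obtain ⟨X1, hX1⟩ := hSIZ
  obtain ⟨X2, hX2⟩ := LL_large (1 / ε)
  refine ⟨max X1 X2, ?_⟩
  intro S ε₁ κ s s' k θ hOk hSK hX he₁ he₁1 hκ hkJ hs hs7 hs' hc1 hc2
  have hL : 1 / ε ≤ S.L := hX2 S.X ((le_max_right _ _).trans hX)
  obtain ⟨hL1, -, -, -, -, -, -, -, -, -, -, hN, hcard⟩ := hX1 S hOk ((le_max_left _ _).trans hX)
  have hh := hOk.hh
  have hrho := hOk.hr0
  -- the size of the shift
  have hv : (2 : ℝ) ^ k * S.h ≤ Real.log 2 / 2 := by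
    have h1 : (2 : ℝ) ^ (k + 1) ≤ 2 ^ S.J := pow_le_pow_right₀ (by norm_num) hkJ
    have h2 := hOk.hJ
    have h3 : (2 : ℝ) ^ (k + 1) * S.h ≤ 2 ^ S.J * S.h := mul_le_mul_of_nonneg_right h1 hh.le
    rw [pow_succ] at h3
    linarith
  have hlog2 : Real.log 2 < 0.7 := by
    have := Real.log_two_lt_d9
    linarith
  have hv0 : 0 < (2 : ℝ) ^ k * S.h := by positivity
  have he : 13 / 20 ≤ Real.exp (-(2 ^ k * S.h)) := by
    have := Real.add_one_le_exp (-((2 : ℝ) ^ k * S.h))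
    linarith
  have he1 : Real.exp (-(2 ^ k * S.h)) < 1 := by
    rw [Real.exp_lt_one_iff]
    linarith
  -- the number of bad points
  have hNh : 12 * S.L ≤ S.N * S.h := by
    refine le_trans ?_ hOk.hI1
    have hK1 : (1 : ℝ) ≤ S.K := by exact_mod_cast hOk.hK
    nlinarith
  have hout : (2 : ℝ) ^ k + 2 ^ (k + 1) ≤ ε * S.N := by
    have h1 : ((2 : ℝ) ^ k + 2 ^ (k + 1)) * S.h ≤ ε * S.N * S.h := by
      have h2 : 1 ≤ ε * S.L := by
        rw [div_le_iff₀ hε] at hL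
        linarith
      rw [pow_succ]
      nlinarith
    exact le_of_mul_le_mul_right h1 hh
  unfold HH
  have hsub : ∀ t ∈ S.I, ¬ (t + 2 ^ k ∈ S.I ∧
      nd (oo S ε₁ θ k (t + 2 ^ k) * θ (t + 2 ^ k) - oo S ε₁ θ k t * θ t -
        s * ε₁ / (S.rho * (1 - Real.exp (-(2 ^ k * S.h)))) *
          (Real.exp (-(2 ^ k * S.h)) - 1) / S.x t) ≤ ε₁ / (S.rho * S.x t)) →
      (((t + 2 ^ k ∉ S.I) ∨ (t + 2 ^ (k + 1) ∉ S.I)) ∨ (1 / 4 < |F1 S ε₁ θ k t - s|)) ∨
        ((t + 2 ^ k ∈ S.I ∧ 1 / 4 < |F1 S ε₁ θ k (t + 2 ^ k) - s|) ∨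
          (1 / 4 < |F1 S ε₁ θ (k + 1) t - s'|)) := by
    intro t ht hbad
    by_contra hcon
    push Not at hcon
    obtain ⟨⟨⟨hA, hB⟩, hC⟩, hD, hF⟩ := hcon
    apply hbad
    refine ⟨hA, ?_⟩
    have hD' := hD hA
    have hxt := Par.x_pos (S := S) t
    set r : ℝ := S.rho * S.x t / ε₁ with hr
    have hr0 : 0 < r := by positivity
    have hx' : S.x (t + 2 ^ k) = S.x t * Real.exp (2 ^ k * S.h) := by
      rw [Par.x_add]
      push_cast
      rw [mul_comm S.h]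
    have hr' : S.rho * S.x (t + 2 ^ k) / ε₁ = r * Real.exp (2 ^ k * S.h) := by
      rw [hx', hr]
      ring
    have heq : Real.exp (-(2 ^ k * S.h)) * Real.exp (2 ^ k * S.h) = 1 := by
      rw [← Real.exp_add]
      simp
    -- the values of `y1`
    have hclip : ∀ (y : ℝ), |min y 16 - s| ≤ 1 / 4 → |y - s| ≤ 1 / 4 := by
      intro y hy
      rcases le_total y 16 with h | h
      · rwa [min_eq_left h] at hy
      · rw [min_eq_right h, abs_le] at hy
        linarith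
    have e1 : |(|ys S ε₁ θ k t|) - s| ≤ 1 / 4 := by
      rw [abs_ys S ε₁ hrho he₁]
      exact hclip _ hC
    have e2 : |(|ys S ε₁ θ k (t + 2 ^ k)|) - s| ≤ 1 / 4 := by
      rw [abs_ys S ε₁ hrho he₁]
      exact hclip _ hD'
    have e3 : 27 / 4 < r * min (nd (θ (t + 2 ^ (k + 1)) - θ t)) (nd (θ (t + 2 ^ (k + 1)) + θ t)) := by
      have h1 : F1 S ε₁ θ (k + 1) t ≤ y1 S ε₁ θ (k + 1) t := min_le_left _ _
      rw [abs_le] at hF
      have h2 : y1 S ε₁ θ (k + 1) t =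
        r * min (nd (θ (t + 2 ^ (k + 1)) - θ t)) (nd (θ (t + 2 ^ (k + 1)) + θ t)) := rfl
      rw [← h2]
      linarith
    have hm1 : θ (t + 2 ^ k) = sg θ k t * θ t + ys S ε₁ θ k t / r +
        (round (θ (t + 2 ^ k) - sg θ k t * θ t) : ℤ) := by
      have h1 : ys S ε₁ θ k t / r = sr (θ (t + 2 ^ k) - sg θ k t * θ t) := by
        unfold ys
        rw [← hr]
        field_simp
      rw [h1]
      unfold sr
      ring
    have hm2 : θ (t + 2 ^ (k + 1)) = sg θ k (t + 2 ^ k) * θ (t + 2 ^ k) +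
        Real.exp (-(2 ^ k * S.h)) * ys S ε₁ θ k (t + 2 ^ k) / r +
        (round (θ (t + 2 ^ k + 2 ^ k) - sg θ k (t + 2 ^ k) * θ (t + 2 ^ k)) : ℤ) := by
      have h0 : t + 2 ^ (k + 1) = t + 2 ^ k + 2 ^ k := by ring
      have h1 : Real.exp (-(2 ^ k * S.h)) * ys S ε₁ θ k (t + 2 ^ k) / r =
          sr (θ (t + 2 ^ k + 2 ^ k) - sg θ k (t + 2 ^ k) * θ (t + 2 ^ k)) := by
        unfold ys
        rw [hr']
        rw [div_eq_iff hr0.ne']
        calc Real.exp (-(2 ^ k * S.h)) * (r * Real.exp (2 ^ k * S.h) *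
              sr (θ (t + 2 ^ k + 2 ^ k) - sg θ k (t + 2 ^ k) * θ (t + 2 ^ k)))
            = (Real.exp (-(2 ^ k * S.h)) * Real.exp (2 ^ k * S.h)) * (r *
              sr (θ (t + 2 ^ k + 2 ^ k) - sg θ k (t + 2 ^ k) * θ (t + 2 ^ k))) := by ring
          _ = _ := by rw [heq]; ring
      rw [h0, h1]
      unfold sr
      ring
    have hfin := ora_core (θ t) (θ (t + 2 ^ k)) (θ (t + 2 ^ (k + 1))) (ys S ε₁ θ k t)
      (ys S ε₁ θ k (t + 2 ^ k)) r (Real.exp (-(2 ^ k * S.h))) s (sg θ k t)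
      (sg θ k (t + 2 ^ k)) _ _ (sg_pm θ k t) (sg_pm θ k _) hr0 he he1.le hm1 hm2 e1 e2 hs hs7 e3
    have hT : s * ε₁ / (S.rho * (1 - Real.exp (-(2 ^ k * S.h)))) *
        (Real.exp (-(2 ^ k * S.h)) - 1) / S.x t = -(s / r) := by
      have hne : (1 - Real.exp (-(2 ^ k * S.h))) ≠ 0 := by linarith
      rw [hr]
      field_simp
      ring
    have h1r : ε₁ / (S.rho * S.x t) = 1 / r := by
      rw [hr]
      field_simp
    rw [hT, h1r, sub_neg_eq_add]
    unfold oo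
    exact hfin
  refine (Par.cnt_le_add hsub).trans ?_
  have c1 : S.cnt (fun t => ((t + 2 ^ k ∉ S.I) ∨ (t + 2 ^ (k + 1) ∉ S.I)) ∨
      (1 / 4 < |F1 S ε₁ θ k t - s|)) ≤ (2 ^ k + 2 ^ (k + 1)) + κ * S.N := by
    refine (Par.cnt_or _ _).trans (add_le_add ((Par.cnt_or _ _).trans (add_le_add ?_ ?_)) hc1)
    · have := Par.cnt_out (S := S) (2 ^ k)
      push_cast at this
      rwa [abs_of_pos (by positivity)] at this
    · have := Par.cnt_out (S := S) (2 ^ (k + 1))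
      push_cast at this
      rwa [abs_of_pos (by positivity)] at this
  have c2 : S.cnt (fun t => (t + 2 ^ k ∈ S.I ∧ 1 / 4 < |F1 S ε₁ θ k (t + 2 ^ k) - s|) ∨
      (1 / 4 < |F1 S ε₁ θ (k + 1) t - s'|)) ≤ κ * S.N + κ * S.N := by
    refine (Par.cnt_or _ _).trans (add_le_add ?_ hc2)
    exact (Par.cnt_shift (fun t => 1 / 4 < |F1 S ε₁ θ k t - s|) (2 ^ k)).trans hc1
  have hκN : 0 ≤ κ * S.N := mul_nonneg hκ hN.le
  calc _ ≤ ((2 ^ k + 2 ^ (k + 1)) + κ * S.N) + (κ * S.N + κ * S.N) := add_le_add c1 c2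
    _ ≤ (4 * κ + ε) * S.N := by nlinarith

end Pool.Agent.H96.N4D
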