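import Pool.Agent.H96.N4D.PS0

/-!
Row PSP of the board n4d (MP_c59857_nt).
-/

set_option autoImplicit false

open Finset

namespace Pool.Agent.H96.N4D

open Pool.Agent.H6.N4D

/-- Numerical estimates for one edge. -/
theorem psp_num (W u rho x n m T ε₁ : ℝ) (hW : 100 ≤ W) (hu : u = rho * x) (hu4 : W ^ 4 ≤ u)
    (hrho : 0 < rho) (hrho2 : rho ≤ 1 / 100) (hx : 0 < x) (hn : x - 1 < n) (hm : |m| ≤ 2 * W)
    (hε : 0 < ε₁) (hT : |T| ≤ 200 * ε₁ / rho ^ 2) :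
    0 < n ∧ |m / n| ≤ 1 / 2 ∧ |m| * (3 * ε₁ / (rho * x)) ≤ ε₁ / 10 ∧
      |T| * (|m / n| / x + 2 * (m / n) ^ 2) ≤ ε₁ / 10 := by
  have hW0 : 0 < W := by linarith
  have hu0 : 0 < u := lt_of_lt_of_le (by positivity) hu4
  have hW3 : W ^ 3 * W ≤ u := by
    calc W ^ 3 * W = W ^ 4 := by ring
      _ ≤ u := hu4
  have hW3' : (1000000 : ℝ) ≤ W ^ 3 := by
    calc (1000000 : ℝ) = 100 ^ 3 := by norm_num
      _ ≤ W ^ 3 := pow_le_pow_left₀ (by norm_num) hW 3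
  have huW : 1000000 * W ≤ u := le_trans (mul_le_mul_of_nonneg_right hW3' hW0.le) hW3
  have hux : u ≤ x / 100 := by
    rw [hu]
    nlinarith
  have hx2 : x / 2 ≤ n := by linarith
  have hn0 : 0 < n := by linarith
  -- `|m / n| ≤ rho / 100000`
  have hq : |m / n| ≤ rho / 100000 := by
    rw [abs_div, abs_of_pos hn0, div_le_iff₀ hn0]
    have h1 : rho / 100000 * (x / 2) ≤ rho / 100000 * n :=
      mul_le_mul_of_nonneg_left hx2 (by positivity)
    have h2 : rho / 100000 * (x / 2) = u / 200000 := by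
      rw [hu]
      ring
    linarith
  have hxinv : 1 / x ≤ rho := by
    rw [div_le_iff₀ hx, ← hu]
    linarith
  refine ⟨hn0, by linarith, ?_, ?_⟩
  · rw [← hu, ← mul_div_assoc, div_le_iff₀ hu0]
    have h1 : |m| * (3 * ε₁) ≤ 2 * W * (3 * ε₁) :=
      mul_le_mul_of_nonneg_right hm (by positivity)
    have h2 : 60 * W * ε₁ ≤ u * ε₁ := mul_le_mul_of_nonneg_right (by linarith) hε.le
    linarith
  · have h1 : |m / n| / x ≤ rho ^ 2 / 100000 := by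
      rw [div_eq_mul_one_div]
      calc |m / n| * (1 / x) ≤ rho / 100000 * rho :=
            mul_le_mul hq hxinv (by positivity) (by positivity)
        _ = _ := by ring
    have h2 : (m / n) ^ 2 ≤ rho ^ 2 / 100000 := by
      rw [← sq_abs]
      calc |m / n| ^ 2 ≤ (rho / 100000) ^ 2 := pow_le_pow_left₀ (abs_nonneg _) hq 2
        _ = rho ^ 2 / 10000000000 := by ring
        _ ≤ _ := div_le_div_of_nonneg_left (by positivity) (by norm_num) (by norm_num)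
    have h3 : |m / n| / x + 2 * (m / n) ^ 2 ≤ rho ^ 2 / 2000 := by
      have : 0 ≤ rho ^ 2 := by positivity
      linarith
    have h4 : 0 ≤ |m / n| / x + 2 * (m / n) ^ 2 := by positivity
    calc |T| * (|m / n| / x + 2 * (m / n) ^ 2)
        ≤ (200 * ε₁ / rho ^ 2) * (rho ^ 2 / 2000) := mul_le_mul hT h3 h4 (by positivity)
      _ = ε₁ / 10 := by
          field_simp
          ring

/-- The integer `D = p n' - n`. -/
theorem psp_int (S : Par) (hOk : S.Ok) (p : ℕ) (hp : 1 ≤ p) (t : ℤ)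
    (hX : S.x t ≤ S.X) (hn1 : S.x t - 1 < S.n t) (hn2 : (S.n t : ℝ) ≤ S.x t)
    (hn1' : S.x (t - S.l p) - 1 < S.n (t - S.l p)) (hn2' : (S.n (t - S.l p) : ℝ) ≤ S.x (t - S.l p))
    (hl : |S.h * S.l p - Real.log p| ≤ S.h / 2) :
    |(p : ℝ) * S.n (t - S.l p) - S.n t| ≤ p + 2 := by
  have hp0 : (0 : ℝ) < p := by exact_mod_cast hp
  have hxpos := Par.x_pos (S := S) t
  have hh := hOk.hh
  have hX1 := hOk.hX
  have hX5 := hOk.hX5
  have hXh : S.X * S.h ≤ 1 := by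
    have h1 : S.X ≤ S.X ^ 5 := le_self_pow₀ hX1 (by norm_num)
    nlinarith
  have hh1 : S.h ≤ 1 := by nlinarith
  have hxh : S.x t * S.h ≤ 1 := by
    have : S.x t * S.h ≤ S.X * S.h := mul_le_mul_of_nonneg_right hX hh.le
    linarith
  have h1 : (p : ℝ) * S.x (t - S.l p) = S.x t * Real.exp (-(S.h * S.l p - Real.log p)) := by
    rw [Par.x_sub]
    have h2 : Real.exp (-(S.h * S.l p - Real.log p)) = p * Real.exp (-(S.h * S.l p)) := by
      rw [show -(S.h * (S.l p : ℝ) - Real.log p) = Real.log p + -(S.h * S.l p) by ring,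
        Real.exp_add, Real.exp_log hp0]
    rw [h2]
    ring
  have h2 : |(p : ℝ) * S.x (t - S.l p) - S.x t| ≤ 1 := by
    have h3 : |-(S.h * S.l p - Real.log p)| ≤ 1 := by
      rw [abs_neg]
      linarith
    have h4 := Real.abs_exp_sub_one_le h3
    rw [abs_neg] at h4
    have h5 : (p : ℝ) * S.x (t - S.l p) - S.x t =
        S.x t * (Real.exp (-(S.h * S.l p - Real.log p)) - 1) := by
      rw [h1]
      ring
    rw [h5, abs_mul, abs_of_pos hxpos]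
    calc S.x t * |Real.exp (-(S.h * S.l p - Real.log p)) - 1| ≤ S.x t * S.h :=
          mul_le_mul_of_nonneg_left (by linarith) hxpos.le
      _ ≤ 1 := hxh
  rw [abs_le] at h2 ⊢
  have h6 : (p : ℝ) * S.n (t - S.l p) ≤ p * S.x (t - S.l p) :=
    mul_le_mul_of_nonneg_left hn2' hp0.le
  have h7 : (p : ℝ) * (S.x (t - S.l p) - 1) ≤ p * S.n (t - S.l p) :=
    mul_le_mul_of_nonneg_left hn1'.le hp0.le
  constructor
  · linarith [h2.1, h2.2]
  · linarith [h2.1, h2.2]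

/-- The difference of the arguments along one edge. -/
theorem psp_dec (φ' φ θ n n' p T h t l : ℝ) (hn : 0 < n) (hn' : 0 < n') (hp : 0 < p) :
    (φ' - T * Real.log n' + T * (h * (t - l))) - (φ - T * Real.log n + T * (h * t) + 1 / 2) =
      (φ' - (φ + θ * (p * n' - n) + 1 / 2)) +
      ((p * n' - n) * θ - T * Real.log (1 + (p * n' - n) / n)) +
      -(T * (h * l - Real.log p)) := by
  have h1 : Real.log (1 + (p * n' - n) / n) = Real.log p + Real.log n' - Real.log n := by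
    rw [show 1 + (p * n' - n) / n = p * n' / n by field_simp; ring,
      Real.log_div (by positivity) hn.ne', Real.log_mul hp.ne' hn'.ne']
  rw [h1]
  ring

theorem psp_one (S : Par) (hOk : S.Ok) (hP : 100 ≤ S.P) (hrho2 : S.rho ≤ 1 / 100)
    (hh4 : S.h ≤ S.rho ^ 4) (ζ ε₀ ε₁ T : ℝ) (θ φ : ℤ → ℝ) (p : ℕ) (hp : 1 ≤ p)
    (hpW : (p : ℝ) ≤ S.P ^ S.K) (hε₀ζ : ε₀ ≤ ζ / 100) (hε₁ : 0 < ε₁) (hε₁ζ : ε₁ ≤ ζ / 5000)
    (hT : |T| ≤ 200 * ε₁ / S.rho ^ 2) (t : ℤ)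
    (hl : |S.h * S.l p - Real.log p| ≤ S.h / 2)
    (hI : S.P ^ (100 * S.K) ≤ S.rho * S.x t ∧ S.x t ≤ S.X ∧
      S.x t - 1 < S.n t ∧ (S.n t : ℝ) ≤ S.x t)
    (hI' : S.P ^ (100 * S.K) ≤ S.rho * S.x (t - S.l p) ∧ S.x (t - S.l p) ≤ S.X ∧
      S.x (t - S.l p) - 1 < S.n (t - S.l p) ∧ (S.n (t - S.l p) : ℝ) ≤ S.x (t - S.l p))
    (hg : nd (θ t - T / S.x t) ≤ 3 * ε₁ / (S.rho * S.x t)) (hO : OEd S ε₀ θ φ p t) :
    ‖ff S φ T (t - S.l p) + ff S φ T t‖ ≤ ζ := by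
  obtain ⟨hu, hxX, hn1, hn2⟩ := hI
  obtain ⟨hu', -, hn1', hn2'⟩ := hI'
  obtain ⟨hu4, hW⟩ := siz_cons S hOk hP t hu
  obtain ⟨hu4', -⟩ := siz_cons S hOk hP _ hu'
  have hrho := hOk.hr0
  have hh := hOk.hh
  have hD := psp_int S hOk p hp t hxX hn1 hn2 hn1' hn2' hl
  have hD2 : |(p : ℝ) * S.n (t - S.l p) - S.n t| ≤ 2 * S.P ^ S.K := by linarith
  obtain ⟨hn0, hq, hb1, hb2⟩ := psp_num (S.P ^ S.K) (S.rho * S.x t) S.rho (S.x t) (S.n t)
    ((p : ℝ) * S.n (t - S.l p) - S.n t) T ε₁ hW rfl hu4 hrho hrho2 (Par.x_pos t) hn1 hD2 hε₁ hT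
  obtain ⟨hn0', -, -, -⟩ := psp_num (S.P ^ S.K) (S.rho * S.x (t - S.l p)) S.rho
    (S.x (t - S.l p)) (S.n (t - S.l p)) 0 T ε₁ hW rfl hu4' hrho hrho2 (Par.x_pos _) hn1'
    (by rw [abs_zero]; positivity) hε₁ hT
  have hp0 : (0 : ℝ) < p := by exact_mod_cast hp
  have hcast : (((p * S.n (t - S.l p) - S.n t : ℤ)) : ℝ) = (p : ℝ) * S.n (t - S.l p) - S.n t := by
    push_cast
    ring
  have hmid := mid_est (p * S.n (t - S.l p) - S.n t : ℤ) (S.x t) (S.n t) T (θ t)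
    (3 * ε₁ / (S.rho * S.x t)) hn0 hn2 (by linarith) (by rw [hcast]; exact hq) hg
  rw [hcast] at hmid
  have hb3 : |-(T * (S.h * S.l p - Real.log p))| ≤ ε₁ / 10 := by
    rw [abs_neg, abs_mul]
    have h0 : S.h / 2 ≤ S.rho ^ 2 / 2000 := by
      have h1 : S.rho ^ 4 = S.rho ^ 2 * S.rho ^ 2 := by ring
      have h2 : S.rho ^ 2 ≤ 1 / 1000 := by nlinarith
      have h3 : S.rho ^ 2 * S.rho ^ 2 ≤ S.rho ^ 2 * (1 / 1000) :=
        mul_le_mul_of_nonneg_left h2 (by positivity)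
      linarith
    calc |T| * |S.h * S.l p - Real.log p| ≤ (200 * ε₁ / S.rho ^ 2) * (S.rho ^ 2 / 2000) :=
          mul_le_mul hT (hl.trans h0) (abs_nonneg _) (by positivity)
      _ = ε₁ / 10 := by
          field_simp
          ring
  have hdec := psp_dec (φ (t - S.l p)) (φ t) (θ t) (S.n t) (S.n (t - S.l p)) p T S.h t (S.l p)
    hn0 hn0' hp0
  have hnd : nd ((φ (t - S.l p) - T * Real.log (S.n (t - S.l p)) +
      T * (S.h * ((t : ℝ) - S.l p))) -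
      (φ t - T * Real.log (S.n t) + T * (S.h * (t : ℝ)) + 1 / 2)) ≤ 1 / 10 * ζ := by
    rw [hdec]
    refine (nd_add_le _ _).trans ?_
    have h2 := nd_add_le
      (φ (t - S.l p) - (φ t + θ t * (p * (S.n (t - S.l p) : ℝ) - S.n t) + 1 / 2))
      (((p : ℝ) * S.n (t - S.l p) - S.n t) * θ t -
        T * Real.log (1 + ((p : ℝ) * S.n (t - S.l p) - S.n t) / S.n t))
    have h3 := nd_le_abs (-(T * (S.h * S.l p - Real.log p)))
    have h4 := hO.2
    linarith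
  have hff : ff S φ T (t - S.l p) + ff S φ T t =
      ee (φ (t - S.l p) - T * Real.log (S.n (t - S.l p)) + T * (S.h * ((t : ℝ) - S.l p))) -
      ee (φ t - T * Real.log (S.n t) + T * (S.h * (t : ℝ)) + 1 / 2) := by
    rw [ee_add _ (1 / 2), ee_half]
    unfold ff
    push_cast
    ring
  rw [hff]
  refine (norm_ee_sub_le _ _).trans ?_
  have hpi := Real.pi_lt_d2
  have hζ : 0 < ζ := by linarith
  calc _ ≤ 2 * Real.pi * (1 / 10 * ζ) := mul_le_mul_of_nonneg_left hnd (by positivity)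
    _ ≤ ζ := by nlinarith

theorem pf_PSP (hSIZ : T_SIZ) (hWTS : T_WTS) : T_PSP := by
  intro K B ζ hK hB hBK hζ
  obtain ⟨X1, hX1⟩ := hSIZ
  obtain ⟨-, hw2, -⟩ := hWTS
  obtain ⟨X2, hX2⟩ := hw2 B hB
  refine ⟨max X1 X2, ?_⟩
  intro S ε ε₀ ε₁ κ T θ φ hOk hSK hX hε₀ hε₀ζ hε₁ hε₁ζ hε₁1 hT hκ0 hR hκ
  obtain ⟨-, hP, -, hrho2, hh4, -, -, -, hI, hl, -, hN, -⟩ :=
    hX1 S hOk ((le_max_left _ _).trans hX)
  have hwt := hX2 S.X ((le_max_right _ _).trans hX)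
  have hP1 : (1 : ℝ) ≤ S.P := by linarith
  have hPB : (0 : ℝ) ≤ S.P ^ B := by positivity
  have hP2 : (0 : ℝ) ≤ S.P ^ (2 * S.K) := by positivity
  have hsub : Pr S.P (S.P ^ B) ⊆ S.Q := by
    intro p hp
    unfold Par.Q
    rw [mem_Pr hP2]
    rw [mem_Pr hPB] at hp
    refine ⟨hp.1, hp.2.1.trans (pow_le_pow_right₀ hP1 ?_), hp.2.2⟩
    omega
  have hterm : ∀ p ∈ Pr S.P (S.P ^ B), 1 / (p : ℝ) *
      S.cnt (fun t => t - S.l p ∈ S.I ∧ ζ < ‖ff S φ T (t - S.l p) + ff S φ T t‖) ≤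
      1 / (p : ℝ) * (κ * S.N) +
        1 / (p : ℝ) * S.cnt (fun t => t - S.l p ∈ S.I ∧ ¬ OEd S ε₀ θ φ p t) := by
    intro p hp
    rw [← mul_add]
    apply mul_le_mul_of_nonneg_left _ (by positivity)
    rw [mem_Pr hPB] at hp
    refine le_trans (Par.cnt_le_add ?_) (add_le_add hκ le_rfl)
    intro t ht ⟨htp, hbad⟩
    by_contra hcon
    push Not at hcon
    obtain ⟨hg1, hg2⟩ := hcon
    apply absurd hbad
    rw [not_lt]
    have hpK : (p : ℝ) ≤ S.P ^ S.K := by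
      refine hp.2.1.trans (pow_le_pow_right₀ hP1 ?_)
      rw [hSK]
      exact hBK
    exact psp_one S hOk hP hrho2 hh4 ζ ε₀ ε₁ T θ φ p hp.2.2.one_lt.le hpK hε₀ζ hε₁ hε₁ζ hT t
      (hl p hp.2.2.one_lt.le) (hI t ht) (hI _ htp) hg1 (hg2 htp)
  refine (Finset.sum_le_sum hterm).trans ?_
  rw [Finset.sum_add_distrib, ← Finset.sum_mul, add_mul]
  refine add_le_add ?_ ?_
  · rw [mul_assoc]
    exact mul_le_mul_of_nonneg_right hwt (mul_nonneg hκ0 hN.le)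
  · refine le_trans (Finset.sum_le_sum_of_subset_of_nonneg hsub fun p _ _ => ?_) hR.edg
    exact mul_nonneg (by positivity) (Par.cnt_nonneg _)

end Pool.Agent.H96.N4D
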