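import Pool.Agent.H6.N4D.TB

/-!
Common lemmas for the rows PSS and PSP of the board n4d (MP_c59857_nt).
-/

set_option autoImplicit false

open Finset

namespace Pool.Agent.H96.N4D

open Pool.Agent.H6.N4D

theorem log_est (q : ℝ) (hq : |q| ≤ 1 / 2) : |q - Real.log (1 + q)| ≤ 2 * q ^ 2 := by
  rw [abs_le] at hq
  have hpos : 0 < 1 + q := by linarith
  have h1 : Real.log (1 + q) ≤ q := by
    have := Real.log_le_sub_one_of_pos hpos
    linarith
  have h2 : 1 - (1 + q)⁻¹ ≤ Real.log (1 + q) := Real.one_sub_inv_le_log_of_pos hpos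
  have h3 : q - 2 * q ^ 2 ≤ 1 - (1 + q)⁻¹ := by
    have h4 : 1 - (1 + q)⁻¹ = q / (1 + q) := by
      field_simp
      ring
    rw [h4, le_div_iff₀ hpos]
    nlinarith [sq_nonneg q, mul_nonneg (sq_nonneg q) (by linarith : (0 : ℝ) ≤ 1 + 2 * q)]
  rw [abs_le]
  constructor
  · nlinarith [sq_nonneg q]
  · linarith

/-- The two middle terms. -/
theorem mid_est (m : ℤ) (x n T θ b : ℝ) (hn : 0 < n) (hnx : n ≤ x) (hxn : x - n ≤ 1)
    (hq : |(m : ℝ) / n| ≤ 1 / 2) (hθ : nd (θ - T / x) ≤ b) :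
    nd (m * θ - T * Real.log (1 + m / n)) ≤
      |(m : ℝ)| * b + |T| * (|(m : ℝ) / n| / x + 2 * ((m : ℝ) / n) ^ 2) := by
  have hx : 0 < x := lt_of_lt_of_le hn hnx
  have h0 : (m : ℝ) * θ - T * Real.log (1 + m / n) =
      m * (θ - T / x) + T * (m / x - Real.log (1 + m / n)) := by
    field_simp
    ring
  rw [h0]
  refine (nd_add_le _ _).trans (add_le_add ?_ ?_)
  · refine (nd_int_mul_le m _).trans ?_
    exact mul_le_mul_of_nonneg_left hθ (abs_nonneg _)
  · refine (nd_le_abs _).trans ?_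
    rw [abs_mul]
    apply mul_le_mul_of_nonneg_left _ (abs_nonneg _)
    have h1 : (m : ℝ) / x - Real.log (1 + m / n) =
        -((m : ℝ) / n * ((x - n) / x)) + ((m : ℝ) / n - Real.log (1 + m / n)) := by
      field_simp
      ring
    rw [h1]
    refine (abs_add_le _ _).trans (add_le_add ?_ (log_est _ hq))
    rw [abs_neg, abs_mul, abs_of_nonneg (a := (x - n) / x) (div_nonneg (by linarith) hx.le),
      div_eq_mul_one_div (|(m : ℝ) / n|) x]
    apply mul_le_mul_of_nonneg_left _ (abs_nonneg _)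
    exact div_le_div_of_nonneg_right hxn hx.le

/-- Consequences of the sizes. -/
theorem siz_cons (S : Par) (hOk : S.Ok) (hP : 100 ≤ S.P) (t : ℤ)
    (ht : S.P ^ (100 * S.K) ≤ S.rho * S.x t) : (S.P ^ S.K) ^ 4 ≤ S.rho * S.x t ∧
      100 ≤ S.P ^ S.K := by
  have hP1 : (1 : ℝ) ≤ S.P := by linarith
  constructor
  · refine le_trans ?_ ht
    rw [← pow_mul]
    apply pow_le_pow_right₀ hP1
    omega
  · calc (100 : ℝ) ≤ S.P := hP
      _ = S.P ^ 1 := (pow_one _).symm
      _ ≤ S.P ^ S.K := pow_le_pow_right₀ hP1 hOk.hK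

end Pool.Agent.H96.N4D
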