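import Pool.Agent.H96.N4D.PS0

/-!
Row PSS of the board n4d (MP_c59857_nt).
-/

set_option autoImplicit false

open Finset

namespace Pool.Agent.H96.N4D

open Pool.Agent.H6.N4D

/-- Numerical estimates for one small shift. -/
theorem pss_num (u rho x n m T ε₁ : ℝ) (hu : u = rho * x) (hu1 : 100 ≤ u)
    (hrho : 0 < rho) (hrho2 : rho ≤ 1 / 100) (hx : 0 < x) (hn : x - 1 < n) (hm0 : 0 ≤ m)
    (hm : m ≤ 2 * rho ^ 2 * x + 1) (hε : 0 < ε₁) (hT : |T| ≤ 200 * ε₁ / rho ^ 2) :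
    0 < n ∧ |m / n| ≤ 1 / 2 ∧ |m| * (3 * ε₁ / (rho * x)) ≤ ε₁ / 10 ∧
      |T| * (|m / n| / x + 2 * (m / n) ^ 2) ≤ 2 * ε₁ := by
  have hu0 : 0 < u := by linarith
  have hux : u ≤ x / 100 := by
    rw [hu]
    have := mul_le_mul_of_nonneg_right hrho2 hx.le
    linarith
  have hn0 : 0 < n := by linarith
  have hm2 : m ≤ 1 / 50 * u + 1 := by
    have h1 : rho ^ 2 * x = rho * u := by
      rw [hu]
      ring
    have h2 : rho * u ≤ 1 / 100 * u := mul_le_mul_of_nonneg_right hrho2 hu0.le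
    linarith
  have hq : |m / n| ≤ 6 / 100 * rho := by
    rw [abs_div, abs_of_pos hn0, abs_of_nonneg hm0, div_le_iff₀ hn0]
    have h1 : 6 / 100 * rho * (x - 1) ≤ 6 / 100 * rho * n :=
      mul_le_mul_of_nonneg_left hn.le (by positivity)
    have h2 : 6 / 100 * rho * (x - 1) = 6 / 100 * u - 6 / 100 * rho := by
      rw [hu]
      ring
    linarith
  have hxinv : 1 / x ≤ rho / 100 := by
    rw [div_le_iff₀ hx]
    linarith
  refine ⟨hn0, by linarith, ?_, ?_⟩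
  · rw [← hu, ← mul_div_assoc, div_le_iff₀ hu0, abs_of_nonneg hm0]
    have h1 : m * (3 * ε₁) ≤ (1 / 50 * u + 1) * (3 * ε₁) :=
      mul_le_mul_of_nonneg_right hm2 (by positivity)
    have h2 : 100 * ε₁ ≤ u * ε₁ := mul_le_mul_of_nonneg_right hu1 hε.le
    linarith
  · have h1 : |m / n| / x ≤ 6 / 10000 * rho ^ 2 := by
      rw [div_eq_mul_one_div]
      calc |m / n| * (1 / x) ≤ (6 / 100 * rho) * (rho / 100) :=
            mul_le_mul hq hxinv (by positivity) (by positivity)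
        _ = _ := by ring
    have h2 : (m / n) ^ 2 ≤ 36 / 10000 * rho ^ 2 := by
      rw [← sq_abs]
      calc |m / n| ^ 2 ≤ (6 / 100 * rho) ^ 2 := pow_le_pow_left₀ (abs_nonneg _) hq 2
        _ = _ := by ring
    have h3 : |m / n| / x + 2 * (m / n) ^ 2 ≤ rho ^ 2 / 100 := by
      have : 0 ≤ rho ^ 2 := by positivity
      linarith
    have h4 : 0 ≤ |m / n| / x + 2 * (m / n) ^ 2 := by positivity
    calc |T| * (|m / n| / x + 2 * (m / n) ^ 2)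
        ≤ (200 * ε₁ / rho ^ 2) * (rho ^ 2 / 100) := mul_le_mul hT h3 h4 (by positivity)
      _ = 2 * ε₁ := by
          field_simp
          ring

/-- The difference of the arguments along one small shift. -/
theorem pss_dec (φ' φ θ n n' T h t w : ℝ) (hn : 0 < n) (hn' : 0 < n') :
    (φ' - T * Real.log n' + T * (h * (t + w))) - (φ - T * Real.log n + T * (h * t)) =
      (φ' - (φ + θ * (n' - n))) + ((n' - n) * θ - T * Real.log (1 + (n' - n) / n)) +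
      T * (h * w) := by
  have h1 : Real.log (1 + (n' - n) / n) = Real.log n' - Real.log n := by
    rw [show 1 + (n' - n) / n = n' / n by field_simp; ring, Real.log_div hn'.ne' hn.ne']
  rw [h1]
  ring

theorem pss_x (S : Par) (hOk : S.Ok) (hrho2 : S.rho ≤ 1 / 100) (hV : S.V * S.h ≤ S.rho ^ 2)
    (w : ℕ) (hwV : w ≤ S.V) (t : ℤ) : S.h * (w : ℝ) ≤ S.rho ^ 2 ∧
      S.x (t + w) ≤ S.x t + 2 * S.rho ^ 2 * S.x t := by
  have hh := hOk.hh
  have hrho := hOk.hr0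
  have hxpos := Par.x_pos (S := S) t
  have h1 : (w : ℝ) ≤ S.V := by exact_mod_cast hwV
  have hwh : S.h * (w : ℝ) ≤ S.rho ^ 2 := by
    have h2 : S.h * (w : ℝ) ≤ S.h * S.V := mul_le_mul_of_nonneg_left h1 hh.le
    linarith
  have hrsq : S.rho ^ 2 ≤ 1 := by
    calc S.rho ^ 2 ≤ 1 ^ 2 := pow_le_pow_left₀ hrho.le (by linarith) 2
      _ = 1 := by norm_num
  have hwh0 : 0 ≤ S.h * (w : ℝ) := by positivity
  refine ⟨hwh, ?_⟩
  rw [Par.x_add]
  push_cast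
  have h3 : |S.h * (w : ℝ)| ≤ 1 := by
    rw [abs_of_nonneg hwh0]
    linarith
  have h4 := Real.abs_exp_sub_one_le h3
  rw [abs_of_nonneg hwh0, abs_le] at h4
  have h5 : S.x t * Real.exp (S.h * (w : ℝ)) ≤ S.x t * (1 + 2 * S.rho ^ 2) :=
    mul_le_mul_of_nonneg_left (by linarith [h4.2]) hxpos.le
  linarith

theorem pss_one (S : Par) (hOk : S.Ok) (hP : 100 ≤ S.P) (hrho2 : S.rho ≤ 1 / 100)
    (hV : S.V * S.h ≤ S.rho ^ 2) (ζ ε₀ ε₁ T : ℝ) (θ φ : ℤ → ℝ) (w : ℕ) (hwV : w ≤ S.V)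
    (hε₀ζ : ε₀ ≤ ζ / 100) (hε₁ : 0 < ε₁) (hε₁ζ : ε₁ ≤ ζ / 5000)
    (hT : |T| ≤ 200 * ε₁ / S.rho ^ 2) (t : ℤ)
    (hI : S.P ^ (100 * S.K) ≤ S.rho * S.x t ∧ S.x t ≤ S.X ∧
      S.x t - 1 < S.n t ∧ (S.n t : ℝ) ≤ S.x t)
    (hI' : S.x (t + w) - 1 < S.n (t + w) ∧ (S.n (t + w) : ℝ) ≤ S.x (t + w))
    (hg : nd (θ t - T / S.x t) ≤ 3 * ε₁ / (S.rho * S.x t)) (hO : OSh S ε₀ θ φ t w) :
    ‖ff S φ T (t + w) - ff S φ T t‖ ≤ ζ := by
  obtain ⟨hu, hxX, hn1, hn2⟩ := hI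
  obtain ⟨hn1', hn2'⟩ := hI'
  obtain ⟨hu4, hW⟩ := siz_cons S hOk hP t hu
  have hrho := hOk.hr0
  have hh := hOk.hh
  have hu100 : 100 ≤ S.rho * S.x t := by
    refine le_trans hW (le_trans ?_ hu4)
    calc S.P ^ S.K = (S.P ^ S.K) ^ 1 := (pow_one _).symm
      _ ≤ (S.P ^ S.K) ^ 4 := pow_le_pow_right₀ (by linarith) (by norm_num)
  obtain ⟨hwh, hx'⟩ := pss_x S hOk hrho2 hV w hwV t
  have hwh0 : 0 ≤ S.h * (w : ℝ) := by positivity
  have hmono : S.n t ≤ S.n (t + w) := by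
    unfold Par.n
    apply Nat.floor_le_floor
    exact Par.x_mono hh (by linarith [Int.natCast_nonneg w])
  have hmR : (S.n t : ℝ) ≤ S.n (t + w) := by exact_mod_cast hmono
  have hD0 : 0 ≤ (S.n (t + w) : ℝ) - S.n t := by linarith
  have hD : (S.n (t + w) : ℝ) - S.n t ≤ 2 * S.rho ^ 2 * S.x t + 1 := by linarith
  obtain ⟨hn0, hq, hb1, hb2⟩ := pss_num (S.rho * S.x t) S.rho (S.x t) (S.n t)
    ((S.n (t + w) : ℝ) - S.n t) T ε₁ rfl hu100 hrho hrho2 (Par.x_pos t) hn1 hD0 hD hε₁ hT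
  have hn0' : (0 : ℝ) < S.n (t + w) := lt_of_lt_of_le hn0 hmR
  have hcast : (((S.n (t + w) - S.n t : ℤ)) : ℝ) = (S.n (t + w) : ℝ) - S.n t := by
    push_cast
    ring
  have hmid := mid_est (S.n (t + w) - S.n t : ℤ) (S.x t) (S.n t) T (θ t)
    (3 * ε₁ / (S.rho * S.x t)) hn0 hn2 (by linarith) (by rw [hcast]; exact hq) hg
  rw [hcast] at hmid
  have hb3 : |T * (S.h * w)| ≤ 200 * ε₁ := by
    rw [abs_mul, abs_of_nonneg hwh0]
    calc |T| * (S.h * w) ≤ (200 * ε₁ / S.rho ^ 2) * S.rho ^ 2 :=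
          mul_le_mul hT hwh hwh0 (by positivity)
      _ = 200 * ε₁ := by
          field_simp
  have hdec := pss_dec (φ (t + w)) (φ t) (θ t) (S.n t) (S.n (t + w)) T S.h t w hn0 hn0'
  have hnd : nd ((φ (t + w) - T * Real.log (S.n (t + w)) + T * (S.h * ((t : ℝ) + w))) -
      (φ t - T * Real.log (S.n t) + T * (S.h * (t : ℝ)))) ≤ 51 / 1000 * ζ := by
    rw [hdec]
    refine (nd_add_le _ _).trans ?_
    have h2 := nd_add_le (φ (t + w) - (φ t + θ t * ((S.n (t + w) : ℝ) - S.n t)))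
      (((S.n (t + w) : ℝ) - S.n t) * θ t -
        T * Real.log (1 + ((S.n (t + w) : ℝ) - S.n t) / S.n t))
    have h3 := nd_le_abs (T * (S.h * w))
    have h4 := hO.2
    linarith
  have hff : ff S φ T (t + w) - ff S φ T t =
      ee (φ (t + w) - T * Real.log (S.n (t + w)) + T * (S.h * ((t : ℝ) + w))) -
      ee (φ t - T * Real.log (S.n t) + T * (S.h * (t : ℝ))) := by
    unfold ff
    push_cast
    rfl
  rw [hff]
  refine (norm_ee_sub_le _ _).trans ?_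
  have hpi := Real.pi_lt_d2
  have hζ : 0 < ζ := by linarith
  calc _ ≤ 2 * Real.pi * (51 / 1000 * ζ) := mul_le_mul_of_nonneg_left hnd (by positivity)
    _ ≤ ζ := by nlinarith

theorem pf_PSS (hSIZ : T_SIZ) : T_PSS := by
  intro K ζ hK hζ
  obtain ⟨X1, hX1⟩ := hSIZ
  refine ⟨X1, ?_⟩
  intro S ε ε₀ ε₁ κ T θ φ hOk hSK hX hε₀ hε₀ζ hε₁ hε₁ζ hε₁1 hT hR hκ w hw1 hwV
  obtain ⟨-, hP, -, hrho2, -, -, hV, -, hI, -, -, hN, -⟩ := hX1 S hOk hX
  have hshf := hR.shf w hwV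
  rw [add_mul]
  refine le_trans (Par.cnt_le_add ?_) (add_le_add hκ hshf)
  intro t ht ⟨htw, hbad⟩
  by_contra hcon
  push Not at hcon
  obtain ⟨hg1, hg2⟩ := hcon
  apply absurd hbad
  rw [not_lt]
  exact pss_one S hOk hP hrho2 hV ζ ε₀ ε₁ T θ φ w hwV hε₀ζ hε₁ hε₁ζ hT t (hI t ht)
    (hI _ htw).2.2 hg1 (hg2 htw)

end Pool.Agent.H96.N4D
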